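import Mathlib

/-!
# Low-power error-correcting cooling codes with `e = w - 2`: the conjectured limit is too small

For all `t ≥ 1`, `w ≥ 4` with `(t+1) w (w-1) < (w+t) (w+t-1)` there is a constant
`c > 1 / ((t+1) w (w-1))` with `C(n,t,w,w-2) ≥ c n²` for all large `n`.

A class consists of all `w`-subsets of `s = ⌈(t+1)/2⌉` pairwise disjoint `(w+1)`-sets. A `t`-set
meets one of the `s` sets in at most one point, so some word of the class avoids it. Such a class
covers fewer pairs of points than `t + 1` disjoint `w`-sets. The `(w+1)`-sets of all classes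
pairwise share at most one point; they are taken from the transversal designs
`{(i, a + i b) : i ≤ w}` over `ZMod m`, `m` prime to `w!`, used recursively inside the groups.
-/

set_option autoImplicit false

open Finset Filter

namespace Pool.Agent.Results.MP_00ae1c_co.LimitFails

/-- the support of a binary word -/
def supp {n : ℕ} (x : Fin n → ZMod 2) : Finset (Fin n) := univ.filter fun i => x i ≠ 0

/-- `P` is the list of classes of an `(n,t,w,e)`-LPECC code of size `b`: the classes are nonempty,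
pairwise disjoint sets of binary words of length `n` (the code is their union) such that
(1) every class has, for every `t`-set `T` of coordinates, a word whose support avoids `T`,
(2) all words have weight at most `w`,
(3) words of different classes have Hamming distance at least `2 e + 1`. -/
structure IsLPECC (n t w e b : ℕ) (P : Fin b → Finset (Fin n → ZMod 2)) : Prop where
  nonempty : ∀ i, (P i).Nonempty
  disjoint : ∀ i j, i ≠ j → Disjoint (P i) (P j)
  avoid : ∀ T : Finset (Fin n), T.card = t → ∀ i, ∃ x ∈ P i, supp x ∩ T = ∅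
  weight : ∀ i, ∀ x ∈ P i, hammingNorm x ≤ w
  dist : ∀ i j, i ≠ j → ∀ x ∈ P i, ∀ y ∈ P j, 2 * e + 1 ≤ hammingDist x y

/-- `C(n,t,w,e)`: the largest size of an `(n,t,w,e)`-LPECC code. -/
noncomputable def C (n t w e : ℕ) : ℕ :=
  sSup {b | ∃ P : Fin b → Finset (Fin n → ZMod 2), IsLPECC n t w e b P}

/-! ### Packings by classes of disjoint blocks -/

/-- `V` carries a family of classes indexed by `ι`, each of `s` pairwise disjoint `k`-sets, any two
sets of different classes sharing at most one point. -/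
def Pack (V : Type) [DecidableEq V] (k s : ℕ) (ι : Type) : Prop :=
  ∃ B : ι → Fin s → Finset V, (∀ i j, (B i j).card = k) ∧
    (∀ i j j', j ≠ j' → Disjoint (B i j) (B i j')) ∧
    ∀ i i' j j', i ≠ i' → (B i j ∩ B i' j').card ≤ 1

lemma Pack.map {V W : Type} [DecidableEq V] [DecidableEq W] {k s : ℕ} {ι κ : Type}
    (f : V ↪ W) (g : κ ↪ ι) (h : Pack V k s ι) : Pack W k s κ := by
  obtain ⟨B, h1, h2, h3⟩ := h
  refine ⟨fun i j => (B (g i) j).map f, fun i j => by rw [card_map]; exact h1 _ _,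
    fun i j j' hj => ?_, fun i i' j j' hi => ?_⟩
  · exact (Finset.disjoint_map f).2 (h2 _ _ _ hj)
  · rw [← Finset.map_inter, card_map]
    exact h3 _ _ _ _ (fun h => hi (g.injective h))

/-- The recursive step: the transversal design over `ZMod m` and packings inside the groups. -/
lemma Pack.step {k s m b : ℕ} (hm : 0 < m) (hcop : m.Coprime (k - 1).factorial)
    (h : Pack (ZMod m) k s (Fin b)) (hk : 2 ≤ k) :
    Pack (Fin k × ZMod m) k s ((ZMod m × Fin (m / s)) ⊕ (Fin k × Fin b)) := by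
  classical
  have : NeZero m := ⟨hm.ne'⟩
  obtain ⟨B, h1, h2, h3⟩ := h
  -- the line with parameters `a`, `b`
  let L : ZMod m → ZMod m → Finset (Fin k × ZMod m) := fun c a =>
    univ.image fun i : Fin k => (i, a + (i : ℕ) * c)
  have hL : ∀ c a i x, (i, x) ∈ L c a ↔ x = a + ((i : Fin k) : ℕ) * c := by
    intro c a i x
    simp only [L, mem_image, mem_univ, true_and, Prod.mk.injEq]
    constructor
    · rintro ⟨j, rfl, rfl⟩; rfl
    · rintro rfl; exact ⟨i, rfl, rfl⟩
  have hLcard : ∀ c a, (L c a).card = k := by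
    intro c a
    simp only [L]
    rw [card_image_of_injective]
    · simp
    · intro i j hij
      simp only [Prod.mk.injEq] at hij
      exact hij.1
  -- differences of indices are invertible
  have hunit : ∀ i j : Fin k, i < j → ∀ c : ZMod m, (((j : ℕ) - (i : ℕ) : ℕ) : ZMod m) * c = 0 →
      c = 0 := by
    intro i j hij c hc
    have hlt : (i : ℕ) < (j : ℕ) := hij
    have hj := j.2
    have hdvd : (j : ℕ) - (i : ℕ) ∣ (k - 1).factorial :=
      Nat.dvd_factorial (by omega) (by omega)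
    have hc2 : Nat.Coprime ((j : ℕ) - (i : ℕ)) m :=
      (Nat.Coprime.coprime_dvd_left hdvd hcop.symm)
    have hu : IsUnit (((j : ℕ) - (i : ℕ) : ℕ) : ZMod m) := (ZMod.isUnit_iff_coprime _ _).2 hc2
    exact (hu.mul_right_eq_zero).1 hc
  have hLL : ∀ c a c' a', (c, a) ≠ (c', a') → (L c a ∩ L c' a').card ≤ 1 := by
    intro c a c' a' hne
    rw [card_le_one]
    rintro ⟨i, x⟩ hx ⟨j, y⟩ hy
    rw [mem_inter, hL, hL] at hx hy
    by_contra hcon
    have key : ∀ i j : Fin k, ∀ x y : ZMod m, i < j →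
        (x = a + ((i : ℕ) : ZMod m) * c ∧ x = a' + ((i : ℕ) : ZMod m) * c') →
        (y = a + ((j : ℕ) : ZMod m) * c ∧ y = a' + ((j : ℕ) : ZMod m) * c') → False := by
      intro i j x y hij hx hy
      have hlt : (i : ℕ) ≤ (j : ℕ) := le_of_lt hij
      have h0 : (((j : ℕ) - (i : ℕ) : ℕ) : ZMod m) * (c - c') = 0 := by
        rw [Nat.cast_sub hlt]
        have e1 : a + ((i : ℕ) : ZMod m) * c = a' + ((i : ℕ) : ZMod m) * c' := hx.1.symm.trans hx.2
        have e2 : a + ((j : ℕ) : ZMod m) * c = a' + ((j : ℕ) : ZMod m) * c' := hy.1.symm.trans hy.2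
        linear_combination e2 - e1
      have h00 := hunit i j hij _ h0
      have hcc : c = c' := sub_eq_zero.1 h00
      subst hcc
      have e1 : a + ((i : ℕ) : ZMod m) * c = a' + ((i : ℕ) : ZMod m) * c := hx.1.symm.trans hx.2
      exact hne (by rw [add_right_cancel e1])
    rcases lt_trichotomy i j with hij | hij | hij
    · exact key i j x y hij hx hy
    · subst hij
      exact hcon (by rw [hx.1, hy.1])
    · exact key j i y x hij hy hx
  have hLdis : ∀ c a a', a ≠ a' → Disjoint (L c a) (L c a') := by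
    intro c a a' hne
    rw [disjoint_left]
    rintro ⟨i, x⟩ hx hx'
    rw [hL] at hx hx'
    exact hne (add_right_cancel (hx.symm.trans hx'))
  -- the numbering of the lines of a parallel class
  have hidx : ∀ (p : Fin (m / s)) (j : Fin s), (p : ℕ) * s + (j : ℕ) < m := by
    intro p j
    have hp := p.2
    have hj := j.2
    have : ((p : ℕ) + 1) * s ≤ m / s * s := Nat.mul_le_mul_right _ hp
    have h4 : m / s * s ≤ m := Nat.div_mul_le_self m s
    nlinarith
  have hinj : ∀ (p p' : Fin (m / s)) (j j' : Fin s),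
      (((p : ℕ) * s + (j : ℕ) : ℕ) : ZMod m) = (((p' : ℕ) * s + (j' : ℕ) : ℕ) : ZMod m) →
      p = p' ∧ j = j' := by
    intro p p' j j' h
    rw [ZMod.natCast_eq_natCast_iff'] at h
    rw [Nat.mod_eq_of_lt (hidx p j), Nat.mod_eq_of_lt (hidx p' j')] at h
    have hs : 0 < s := lt_of_le_of_lt (Nat.zero_le _) j.2
    have e1 : ((p : ℕ) * s + (j : ℕ)) / s = p := by
      rw [Nat.mul_comm, Nat.mul_add_div hs, Nat.div_eq_of_lt j.2, add_zero]
    have e2 : ((p' : ℕ) * s + (j' : ℕ)) / s = p' := by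
      rw [Nat.mul_comm, Nat.mul_add_div hs, Nat.div_eq_of_lt j'.2, add_zero]
    have e3 : (p : ℕ) = p' := by rw [← e1, ← e2, h]
    have e4 : (j : ℕ) = j' := by
      rw [e3] at h
      omega
    exact ⟨Fin.ext e3, Fin.ext e4⟩
  -- inner blocks
  let E : Fin k → ZMod m ↪ Fin k × ZMod m := fun i =>
    ⟨fun x => (i, x), fun x y hxy => by simpa using hxy⟩
  let N : (ZMod m × Fin (m / s)) ⊕ (Fin k × Fin b) → Fin s → Finset (Fin k × ZMod m) := fun z j =>
    match z with
    | Sum.inl (c, p) => L c (((p : ℕ) * s + (j : ℕ) : ℕ) : ZMod m)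
    | Sum.inr (i, q) => (B q j).map (E i)
  have hLB : ∀ c a i (S : Finset (ZMod m)), (L c a ∩ S.map (E i)).card ≤ 1 := by
    intro c a i S
    rw [card_le_one]
    rintro ⟨i1, x⟩ hx ⟨i2, y⟩ hy
    rw [mem_inter, hL, Finset.mem_map] at hx hy
    obtain ⟨hx1, x', _, hx2⟩ := hx
    obtain ⟨hy1, y', _, hy2⟩ := hy
    replace hx2 : ((i, x') : Fin k × ZMod m) = (i1, x) := hx2
    replace hy2 : ((i, y') : Fin k × ZMod m) = (i2, y) := hy2
    rw [Prod.mk.injEq] at hx2 hy2
    obtain ⟨rfl, rfl⟩ := hx2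
    obtain ⟨rfl, rfl⟩ := hy2
    rw [hx1, hy1]
  refine ⟨N, ?_, ?_, ?_⟩
  · rintro (⟨c, p⟩ | ⟨i, q⟩) j
    · exact hLcard _ _
    · simp only [N, card_map]
      exact h1 _ _
  · rintro (⟨c, p⟩ | ⟨i, q⟩) j j' hj
    · exact hLdis _ _ _ (fun h => hj (hinj _ _ _ _ h).2)
    · exact (Finset.disjoint_map (E i)).2 (h2 _ _ _ hj)
  · rintro (⟨c, p⟩ | ⟨i, q⟩) (⟨c', p'⟩ | ⟨i', q'⟩) j j' hne
    · apply hLL
      intro h
      rw [Prod.mk.injEq] at h
      apply hne
      rw [h.1, (hinj _ _ _ _ h.2).1]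
    · exact hLB _ _ _ _
    · show ((B q j).map (E i) ∩ L c' _).card ≤ 1
      rw [inter_comm]
      exact hLB _ _ _ _
    · show ((B q j).map (E i) ∩ (B q' j').map (E i')).card ≤ 1
      by_cases hii : i = i'
      · subst hii
        rw [← Finset.map_inter, card_map]
        apply h3
        intro hqq
        exact hne (by rw [hqq])
      · have : (B q j).map (E i) ∩ (B q' j').map (E i') = ∅ := by
          rw [← disjoint_iff_inter_eq_empty, disjoint_left]
          intro z hz hz'
          rw [Finset.mem_map] at hz hz'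
          obtain ⟨x, _, rfl⟩ := hz
          obtain ⟨y, _, hy⟩ := hz'
          replace hy : ((i', y) : Fin k × ZMod m) = (i, x) := hy
          rw [Prod.mk.injEq] at hy
          exact hii hy.1.symm
        rw [this]
        simp

/-- for every `β < α` and all large `n` there are `b ≥ β n²` classes on `n` points -/
def Dens (k s : ℕ) (α : ℝ) : Prop :=
  ∀ β < α, ∀ᶠ n : ℕ in atTop, ∃ b : ℕ, β * (n : ℝ) ^ 2 ≤ b ∧ Pack (Fin n) k s (Fin b)

lemma Dens.zero (k s : ℕ) : Dens k s 0 := by
  intro β hβ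
  refine Eventually.of_forall fun n => ⟨0, ?_, fun i => i.elim0, fun i => i.elim0,
    fun i => i.elim0, fun i => i.elim0⟩
  simp only [Nat.cast_zero]
  have : (0 : ℝ) ≤ (n : ℝ) ^ 2 := by positivity
  nlinarith

lemma Dens.step {k s : ℕ} (hk : 2 ≤ k) (hs : 1 ≤ s) {α : ℝ} (h : Dens k s α) :
    Dens k s (1 / ((s : ℝ) * (k : ℝ) ^ 2) + α / k) := by
  intro β hβ
  have hk0 : (0 : ℝ) < k := by positivity
  have hs0 : (0 : ℝ) < s := by positivity
  obtain ⟨β', hβ'1, hβ'2⟩ : ∃ β' < α, β < 1 / ((s : ℝ) * (k : ℝ) ^ 2) + β' / k := by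
    have h1 : (β - 1 / ((s : ℝ) * (k : ℝ) ^ 2)) * k < α := by
      rw [← lt_div_iff₀ hk0]
      linarith
    obtain ⟨β', h2, h3⟩ := exists_between h1
    refine ⟨β', h3, ?_⟩
    rw [← lt_div_iff₀ hk0] at h2
    linarith
  set Lf := (k - 1).factorial with hLf
  have hLpos : 0 < Lf := Nat.factorial_pos _
  -- the size of the groups
  let m : ℕ → ℕ := fun n => Lf * ((n / k - 1) / Lf) + 1
  have hm1 : ∀ n, k ≤ n → m n * k ≤ n := by
    intro n hn
    have h1 : 1 ≤ n / k := (Nat.one_le_div_iff (by omega)).2 hn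
    have h2 : Lf * ((n / k - 1) / Lf) ≤ n / k - 1 := Nat.mul_div_le _ _
    have h3 : m n ≤ n / k := by
      simp only [m]
      omega
    exact (Nat.mul_le_mul_right k h3).trans (Nat.div_mul_le_self n k)
  have hm2 : ∀ n, k ≤ n → n ≤ (m n + Lf + 1) * k := by
    intro n hn
    have h1 : 1 ≤ n / k := (Nat.one_le_div_iff (by omega)).2 hn
    have h2 : n / k - 1 < Lf * ((n / k - 1) / Lf) + Lf := Nat.lt_mul_div_succ _ hLpos |>.trans_le
      (by rw [Nat.mul_add, mul_one])
    have h3 : n / k + 1 ≤ m n + Lf + 1 := by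
      simp only [m]
      omega
    have h4 : n < (n / k + 1) * k := by
      rw [mul_comm]
      exact Nat.lt_mul_div_succ n (by omega)
    exact h4.le.trans (Nat.mul_le_mul_right k h3)
  have hmlim : Tendsto (fun n : ℕ => (m n : ℝ) / n) atTop (nhds (1 / k)) := by
    have hl : Tendsto (fun n : ℕ => 1 / (k : ℝ) - ((Lf : ℝ) + 1) / n) atTop
        (nhds (1 / k - 0)) :=
      tendsto_const_nhds.sub (tendsto_const_nhds.div_atTop tendsto_natCast_atTop_atTop)
    rw [sub_zero] at hl
    refine tendsto_of_tendsto_of_tendsto_of_le_of_le' hl tendsto_const_nhds ?_ ?_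
    · filter_upwards [eventually_ge_atTop k, eventually_gt_atTop 0] with n hn hn0
      have h1 : (n : ℝ) ≤ ((m n : ℝ) + Lf + 1) * k := by exact_mod_cast hm2 n hn
      have hn0' : (0 : ℝ) < n := by exact_mod_cast hn0
      rw [div_sub_div _ _ hk0.ne' hn0'.ne', div_le_div_iff₀ (by positivity) hn0']
      nlinarith
    · filter_upwards [eventually_ge_atTop k, eventually_gt_atTop 0] with n hn hn0
      have h1 : (m n : ℝ) * k ≤ n := by exact_mod_cast hm1 n hn
      have hn0' : (0 : ℝ) < n := by exact_mod_cast hn0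
      rw [div_le_div_iff₀ hn0' hk0]
      linarith
  have hmtop : Tendsto m atTop atTop := by
    have h1 : Tendsto (fun n : ℕ => (m n : ℝ)) atTop atTop := by
      have h2 : Tendsto (fun n : ℕ => (m n : ℝ) / n * n) atTop atTop :=
        hmlim.pos_mul_atTop (by positivity) tendsto_natCast_atTop_atTop
      refine h2.congr' ?_
      filter_upwards [eventually_gt_atTop 0] with n hn
      have hn0' : (n : ℝ) ≠ 0 := by exact_mod_cast hn.ne'
      field_simp
    exact tendsto_natCast_atTop_iff.1 h1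
  have hlim : Tendsto (fun n : ℕ => ((m n : ℝ) / n) ^ 2 / s - (m n : ℝ) / n * (1 / n)
      + k * β' * ((m n : ℝ) / n) ^ 2) atTop
      (nhds ((1 / (k : ℝ)) ^ 2 / s - 1 / k * 0 + k * β' * (1 / k) ^ 2)) :=
    (((hmlim.pow 2).div_const _).sub (hmlim.mul (tendsto_const_nhds.div_atTop
      tendsto_natCast_atTop_atTop))).add ((hmlim.pow 2).const_mul _)
  have hlt : β < (1 / (k : ℝ)) ^ 2 / s - 1 / k * 0 + k * β' * (1 / k) ^ 2 := by
    have : (1 / (k : ℝ)) ^ 2 / s - 1 / k * 0 + k * β' * (1 / k) ^ 2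
        = 1 / ((s : ℝ) * (k : ℝ) ^ 2) + β' / k := by
      field_simp
      ring
    rw [this]
    exact hβ'2
  filter_upwards [hlim.eventually (lt_mem_nhds hlt), hmtop.eventually (h β' hβ'1),
    eventually_ge_atTop k, eventually_gt_atTop 0] with n hn1 hn2 hn3 hn4
  obtain ⟨b, hb1, hb2⟩ := hn2
  have hmpos : 0 < m n := Nat.succ_pos _
  have hcop : (m n).Coprime (k - 1).factorial := by
    rw [← hLf]
    simp only [m]
    simp
  have : NeZero (m n) := ⟨hmpos.ne'⟩
  have hP1 : Pack (ZMod (m n)) k s (Fin b) :=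
    hb2.map (ZMod.finEquiv (m n)).toEquiv.toEmbedding (Function.Embedding.refl _)
  have hP2 := hP1.step hmpos hcop hk
  refine ⟨m n * (m n / s) + k * b, ?_, ?_⟩
  · have hn0' : (0 : ℝ) < n := by exact_mod_cast hn4
    have h1 : (m n : ℝ) ≤ (m n / s : ℕ) * s + s := by
      have : m n < s * (m n / s) + s := by
        have := Nat.lt_mul_div_succ (m n) (show 0 < s by omega)
        rwa [Nat.mul_add, mul_one] at this
      have h2 : m n ≤ (m n / s) * s + s := by
        rw [mul_comm]
        exact this.le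
      exact_mod_cast h2
    have h2 : (m n : ℝ) / s - 1 ≤ (m n / s : ℕ) := by
      rw [sub_le_iff_le_add, div_le_iff₀ hs0]
      linarith
    have hm0 : (0 : ℝ) ≤ m n := by positivity
    have h3 : β * (n : ℝ) ^ 2 ≤ (((m n : ℝ) / n) ^ 2 / s - (m n : ℝ) / n * (1 / n)
      + k * β' * ((m n : ℝ) / n) ^ 2) * (n : ℝ) ^ 2 :=
      mul_le_mul_of_nonneg_right hn1.le (by positivity)
    have h4 : (((m n : ℝ) / n) ^ 2 / s - (m n : ℝ) / n * (1 / n)
      + k * β' * ((m n : ℝ) / n) ^ 2) * (n : ℝ) ^ 2 =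
      (m n : ℝ) * ((m n : ℝ) / s - 1) + k * (β' * (m n : ℝ) ^ 2) := by
      field_simp
    rw [h4] at h3
    push_cast
    have h5 : (m n : ℝ) * ((m n : ℝ) / s - 1) ≤ (m n : ℝ) * ((m n / s : ℕ) : ℝ) :=
      mul_le_mul_of_nonneg_left h2 hm0
    have h6 : (k : ℝ) * (β' * (m n : ℝ) ^ 2) ≤ k * b := mul_le_mul_of_nonneg_left hb1 hk0.le
    linarith
  · obtain ⟨f⟩ : Nonempty (Fin k × ZMod (m n) ↪ Fin n) := by
      apply Function.Embedding.nonempty_of_card_le
      rw [Fintype.card_prod, Fintype.card_fin, Fintype.card_fin, ZMod.card, mul_comm]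
      exact hm1 n hn3
    obtain ⟨g⟩ : Nonempty (Fin (m n * (m n / s) + k * b) ↪
        (ZMod (m n) × Fin (m n / s)) ⊕ (Fin k × Fin b)) := by
      apply Function.Embedding.nonempty_of_card_le
      simp [ZMod.card]
    exact hP2.map f g

/-- the limit of the recursion -/
lemma Dens.iterate {k s : ℕ} (hk : 2 ≤ k) (hs : 1 ≤ s) (d : ℕ) :
    Dens k s (1 / ((s : ℝ) * k * (k - 1)) * (1 - (1 / (k : ℝ)) ^ d)) := by
  induction d with
  | zero => simpa using Dens.zero k s
  | succ d ih =>
    have h := ih.step hk hs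
    have hk0 : (k : ℝ) ≠ 0 := by positivity
    have hs0 : (s : ℝ) ≠ 0 := by positivity
    have hk1 : (k : ℝ) - 1 ≠ 0 := by
      have : (2 : ℝ) ≤ k := by exact_mod_cast hk
      linarith
    convert h using 1
    rw [pow_succ]
    field_simp
    ring

/-! ### From packings to codes -/

/-- the word with support `S` -/
def ind {n : ℕ} (S : Finset (Fin n)) : Fin n → ZMod 2 := fun i => if i ∈ S then 1 else 0

lemma supp_ind {n : ℕ} (S : Finset (Fin n)) : supp (ind S) = S := by
  ext i
  simp [supp, ind]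

lemma norm_ind {n : ℕ} (S : Finset (Fin n)) : hammingNorm (ind S) = S.card := by
  unfold hammingNorm
  congr 1
  exact supp_ind S

lemma dist_ind {n : ℕ} (S T : Finset (Fin n)) :
    hammingDist (ind S) (ind T) + 2 * (S ∩ T).card = S.card + T.card := by
  have h1 : hammingDist (ind S) (ind T) = (S \ T).card + (T \ S).card := by
    rw [← card_union_of_disjoint disjoint_sdiff_sdiff]
    unfold hammingDist
    congr 1
    ext i
    rw [Finset.mem_filter, Finset.mem_union, Finset.mem_sdiff, Finset.mem_sdiff]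
    by_cases h1 : i ∈ S <;> by_cases h2 : i ∈ T <;> simp [ind, h1, h2]
  have h2 := card_sdiff_add_card_inter S T
  have h3 := card_sdiff_add_card_inter T S
  rw [inter_comm] at h3
  omega

lemma bdd (n t w e : ℕ) :
    BddAbove {b | ∃ P : Fin b → Finset (Fin n → ZMod 2), IsLPECC n t w e b P} := by
  refine ⟨Fintype.card (Fin n → ZMod 2), ?_⟩
  rintro b ⟨P, hP⟩
  choose x hx using hP.nonempty
  have hinj : Function.Injective x := by
    intro i j hij
    by_contra hne
    exact disjoint_left.1 (hP.disjoint i j hne) (hx i) (hij ▸ hx j)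
  simpa using Fintype.card_le_of_injective x hinj

lemma le_C {n t w s b : ℕ} (hw : 2 ≤ w) (hs : t + 1 ≤ 2 * s)
    (h : Pack (Fin n) (w + 1) s (Fin b)) : b ≤ C n t w (w - 2) := by
  classical
  obtain ⟨B, h1, h2, h3⟩ := h
  apply le_csSup (bdd n t w (w - 2))
  let P : Fin b → Finset (Fin n → ZMod 2) := fun i =>
    univ.biUnion fun j => ((B i j).powersetCard w).image ind
  have hP : ∀ i x, x ∈ P i ↔ ∃ j S, S ⊆ B i j ∧ S.card = w ∧ ind S = x := by
    intro i x
    simp only [P, mem_biUnion, mem_univ, true_and, mem_image, mem_powersetCard]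
    constructor
    · rintro ⟨j, S, ⟨hS1, hS2⟩, hS3⟩; exact ⟨j, S, hS1, hS2, hS3⟩
    · rintro ⟨j, S, hS1, hS2, hS3⟩; exact ⟨j, S, ⟨hS1, hS2⟩, hS3⟩
  have hdist : ∀ i i', i ≠ i' → ∀ x ∈ P i, ∀ y ∈ P i', 2 * (w - 2) + 1 ≤ hammingDist x y := by
    intro i i' hne x hx y hy
    rw [hP] at hx hy
    obtain ⟨j, S, hS1, hS2, rfl⟩ := hx
    obtain ⟨j', S', hS1', hS2', rfl⟩ := hy
    have h4 := dist_ind S S'
    have h5 : (S ∩ S').card ≤ 1 :=
      (card_le_card (inter_subset_inter hS1 hS1')).trans (h3 _ _ _ _ hne)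
    omega
  have hspos : 0 < s := by omega
  refine ⟨P, ?_, ?_, ?_, ?_, hdist⟩
  · intro i
    obtain ⟨S, hS1, hS2⟩ := exists_subset_card_eq (s := B i ⟨0, hspos⟩) (n := w)
      (by rw [h1]; omega)
    exact ⟨ind S, (hP _ _).2 ⟨_, S, hS1, hS2, rfl⟩⟩
  · intro i i' hne
    rw [disjoint_left]
    intro x hx hx'
    have := hdist i i' hne x hx x hx'
    rw [hammingDist_self] at this
    omega
  · intro T hT i
    -- some block meets `T` in at most one point
    obtain ⟨j, hj⟩ : ∃ j, (B i j ∩ T).card ≤ 1 := by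
      by_contra hcon
      push Not at hcon
      have h4 : (univ.biUnion fun j => B i j ∩ T).card = ∑ j, (B i j ∩ T).card := by
        apply card_biUnion
        intro j _ j' _ hjj
        exact Finset.disjoint_of_subset_left inter_subset_left
          (Finset.disjoint_of_subset_right inter_subset_left (h2 i j j' hjj))
      have h5 : (univ.biUnion fun j => B i j ∩ T).card ≤ T.card := by
        apply card_le_card
        intro z hz
        rw [mem_biUnion] at hz
        obtain ⟨j, _, hz⟩ := hz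
        exact (mem_inter.1 hz).2
      have h6 : ∑ j : Fin s, 2 ≤ ∑ j, (B i j ∩ T).card := sum_le_sum fun j _ => hcon j
      simp only [sum_const, card_univ, Fintype.card_fin, smul_eq_mul] at h6
      omega
    have h7 : w ≤ (B i j \ T).card := by
      have := card_sdiff_add_card_inter (B i j) T
      rw [h1] at this
      omega
    obtain ⟨S, hS1, hS2⟩ := exists_subset_card_eq h7
    refine ⟨ind S, (hP _ _).2 ⟨j, S, hS1.trans sdiff_subset, hS2, rfl⟩, ?_⟩
    rw [supp_ind, ← disjoint_iff_inter_eq_empty]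
    exact Finset.disjoint_of_subset_left hS1 sdiff_disjoint
  · intro i x hx
    rw [hP] at hx
    obtain ⟨j, S, hS1, hS2, rfl⟩ := hx
    rw [norm_ind, hS2]

/-- For all `t ≥ 1` and `w ≥ 4` with `(t+1) w (w-1) < (w+t) (w+t-1)` there is a constant
`c > 1 / ((t+1) w (w-1))` such that `C(n,t,w,w-2) ≥ c n²` for all sufficiently large `n`. -/
theorem result (t w : ℕ) (ht : 1 ≤ t) (hw : 4 ≤ w)
    (h : (t + 1) * w * (w - 1) < (w + t) * (w + t - 1)) :
    ∃ c : ℝ, 1 / (((t : ℝ) + 1) * w * (w - 1)) < c ∧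
      ∃ N : ℕ, ∀ n ≥ N, c * (n : ℝ) ^ 2 ≤ C n t w (w - 2) := by
  set s := (t + 2) / 2 with hs
  have hs1 : 1 ≤ s := by omega
  have hs2 : t + 1 ≤ 2 * s := by omega
  have hs3 : 2 * s ≤ t + 2 := by omega
  -- the arithmetic of the parameters
  have harith : s * (w + 1) * w < (t + 1) * w * (w - 1) := by
    obtain ⟨v, rfl⟩ : ∃ v, w = v + 4 := ⟨w - 4, by omega⟩
    have e1 : v + 4 - 1 = v + 3 := by omega
    have e2 : v + 4 + t - 1 = v + 3 + t := by omega
    rw [e1, e2] at h
    rw [e1]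
    have h6 : 6 ≤ t := by
      by_contra hcon
      interval_cases t <;> nlinarith
    have h8 : (t + 2) * (v + 5) < 2 * ((t + 1) * (v + 3)) := by nlinarith
    have h9 : (t + 2) * (v + 5) * (v + 4) < 2 * ((t + 1) * (v + 3)) * (v + 4) :=
      Nat.mul_lt_mul_of_pos_right h8 (by omega)
    have h10 := Nat.mul_le_mul_right ((v + 5) * (v + 4)) hs3
    have h11 : 2 * (s * (v + 4 + 1) * (v + 4)) < 2 * ((t + 1) * (v + 4) * (v + 3)) := by
      calc 2 * (s * (v + 4 + 1) * (v + 4)) = 2 * s * ((v + 5) * (v + 4)) := by ring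
        _ ≤ (t + 2) * ((v + 5) * (v + 4)) := h10
        _ = (t + 2) * (v + 5) * (v + 4) := by ring
        _ < 2 * ((t + 1) * (v + 3)) * (v + 4) := h9
        _ = _ := by ring
    exact Nat.lt_of_mul_lt_mul_left h11
  have hwR : (4 : ℝ) ≤ w := by exact_mod_cast hw
  have harithR : (s : ℝ) * ((w : ℝ) + 1) * w < ((t : ℝ) + 1) * w * (w - 1) := by
    have : ((s * (w + 1) * w : ℕ) : ℝ) < (((t + 1) * w * (w - 1) : ℕ) : ℝ) := by
      exact_mod_cast harith
    push_cast [Nat.cast_sub (show 1 ≤ w by omega)] at this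
    exact this
  have hsR : (0 : ℝ) < s := by exact_mod_cast hs1
  have hlt : 1 / (((t : ℝ) + 1) * w * (w - 1)) < 1 / ((s : ℝ) * ((w + 1 : ℕ) : ℝ) *
      (((w + 1 : ℕ) : ℝ) - 1)) := by
    apply one_div_lt_one_div_of_lt
    · push_cast
      have : (0 : ℝ) < (w : ℝ) + 1 - 1 := by linarith
      positivity
    · push_cast
      have : (w : ℝ) + 1 - 1 = w := by ring
      rw [this]
      exact harithR
  -- choose the depth of the recursion
  have hlim : Tendsto (fun d : ℕ => 1 / ((s : ℝ) * ((w + 1 : ℕ) : ℝ) *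
      (((w + 1 : ℕ) : ℝ) - 1)) * (1 - (1 / ((w + 1 : ℕ) : ℝ)) ^ d)) atTop
      (nhds (1 / ((s : ℝ) * ((w + 1 : ℕ) : ℝ) * (((w + 1 : ℕ) : ℝ) - 1)) * (1 - 0))) := by
    apply Tendsto.const_mul
    apply tendsto_const_nhds.sub
    apply tendsto_pow_atTop_nhds_zero_of_lt_one (by positivity)
    rw [div_lt_one (by positivity)]
    push_cast
    linarith
  rw [sub_zero, mul_one] at hlim
  obtain ⟨d, hd⟩ := (hlim.eventually (lt_mem_nhds hlt)).exists
  obtain ⟨c, hc1, hc2⟩ := exists_between hd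
  refine ⟨c, hc1, ?_⟩
  obtain ⟨N, hN⟩ := eventually_atTop.1 (Dens.iterate (k := w + 1) (s := s) (by omega) hs1 d c hc2)
  refine ⟨N, fun n hn => ?_⟩
  obtain ⟨b, hb1, hb2⟩ := hN n hn
  exact hb1.trans (by exact_mod_cast le_C (by omega) hs2 hb2)

end Pool.Agent.Results.MP_00ae1c_co.LimitFails
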